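import Pool.Agent.L5helper29.AA.Defs
import Pool.Agent.W976.MF.SPL
import Pool.Agent.W458.MF.Gen2

/-!
# Project AA: infinitely many primes which split and are residue fields of a number field
-/

set_option autoImplicit false

namespace Pool.Agent.L5helper7.AA

open Polynomial NumberField
open Pool.Agent.W458.MF Pool.Agent.W976.MF Pool.Agent.L5helper29.AA

/-- a common denominator -/
theorem exists_denominator (K : Type) [Field K] [NumberField K] (θ : K)
    (hgen : ∀ x : K, ∃ (D : ℕ) (p : ℤ[X]), D ≠ 0 ∧ (D : K) * x = aeval θ p) :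
    ∃ c : ℕ, c ≠ 0 ∧ ∀ x : 𝓞 K, ∃ p : ℤ[X], (c : K) * (x : K) = aeval θ p := by
  classical
  choose D p hD hp using hgen
  obtain ⟨s, hs⟩ := (Module.Finite.fg_top : (⊤ : Submodule ℤ (𝓞 K)).FG)
  refine ⟨∏ y ∈ s, D (y : K), Finset.prod_ne_zero_iff.2 fun y _ => hD _, fun x => ?_⟩
  have hx : x ∈ Submodule.span ℤ (s : Set (𝓞 K)) := by rw [hs]; trivial
  induction hx using Submodule.span_induction with
  | mem y hy =>
    refine ⟨C ((∏ z ∈ s.erase y, D (z : K) : ℕ) : ℤ) * p (y : K), ?_⟩
    rw [map_mul, aeval_C, ← hp, ← Finset.mul_prod_erase s (fun z : 𝓞 K => D (z : K)) hy]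
    push_cast
    ring
  | zero => exact ⟨0, by simp⟩
  | add a b _ _ ha hb =>
    obtain ⟨pa, ha⟩ := ha
    obtain ⟨pb, hb⟩ := hb
    exact ⟨pa + pb, by rw [map_add, ← ha, ← hb]; push_cast; ring⟩
  | smul n a _ ha =>
    obtain ⟨pa, ha⟩ := ha
    refine ⟨C n * pa, ?_⟩
    rw [map_mul, aeval_C, ← ha]
    have h1 : ((n • a : 𝓞 K) : K) = (n : K) * (a : K) := by
      have h2 : ((n • a : 𝓞 K) : K) = n • (a : K) := map_zsmul (algebraMap (𝓞 K) K) n a
      rw [h2, zsmul_eq_mul]
    rw [h1]
    simp only [algebraMap_int_eq, eq_intCast]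
    ring

/-- a root of the minimal polynomial gives a homomorphism on the ring of integers -/
theorem exists_hom (K : Type) [Field K] [NumberField K] (θ : K) (hθ : IsIntegral ℤ θ) (c : ℕ)
    (hc : ∀ x : 𝓞 K, ∃ p : ℤ[X], (c : K) * (x : K) = aeval θ p) (l : ℕ) [Fact l.Prime]
    (hl : ¬ l ∣ c) (t : ZMod l) (ht : ((minpoly ℤ θ).map (Int.castRingHom (ZMod l))).IsRoot t) :
    Nonempty (𝓞 K →+* ZMod l) := by
  classical
  set m : ℤ[X] := minpoly ℤ θ with hm
  let ψ : AdjoinRoot m →+* ZMod l := AdjoinRoot.lift (Int.castRingHom (ZMod l)) t (by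
    rw [IsRoot.def, eval_map] at ht
    exact ht)
  have key : ∀ g g' : ℤ[X], aeval θ g = aeval θ g' →
      ψ (AdjoinRoot.mk m g) = ψ (AdjoinRoot.mk m g') := by
    intro g g' h
    have h1 : AdjoinRoot.mk m g = AdjoinRoot.mk m g' := by
      rw [AdjoinRoot.mk_eq_mk]
      exact minpoly.isIntegrallyClosed_dvd hθ (by rw [map_sub, h, sub_self])
    rw [h1]
  have hc0 : (c : ZMod l) ≠ 0 := by
    rw [Ne, ZMod.natCast_eq_zero_iff]
    exact hl
  have hC : ∀ n : ℤ, ψ (AdjoinRoot.mk m (C n)) = (n : ZMod l) := by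
    intro n
    simp [ψ]
  choose P hP using hc
  refine ⟨{ toFun := fun x => ψ (AdjoinRoot.mk m (P x)) / (c : ZMod l)
            map_one' := ?_
            map_mul' := ?_
            map_zero' := ?_
            map_add' := ?_ }⟩
  · rw [key (P 1) (C (c : ℤ)) (by rw [← hP]; simp), hC]
    push_cast
    exact div_self hc0
  · intro x y
    have h1 : ψ (AdjoinRoot.mk m (P x * P y)) = ψ (AdjoinRoot.mk m (C (c : ℤ) * P (x * y))) := by
      apply key
      rw [map_mul, map_mul, ← hP, ← hP, ← hP, aeval_C]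
      simp only [algebraMap_int_eq, eq_intCast]
      push_cast
      ring
    rw [map_mul, map_mul, map_mul, map_mul, hC] at h1
    push_cast at h1
    field_simp
    rw [h1]
    ring
  · rw [key (P 0) 0 (by rw [← hP]; simp)]
    simp
  · intro x y
    rw [key (P (x + y)) (P x + P y) (by rw [map_add, ← hP, ← hP, ← hP]; push_cast; ring),
      map_add, map_add, add_div]

theorem PRIMES : St_PRIMES := by
  intro K _ _ R hR hsep
  classical
  obtain ⟨θ, hθ, hgen⟩ := exists_gen K
  obtain ⟨c, hc0, hc⟩ := exists_denominator K θ hgen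
  have hm : (minpoly ℤ θ).Monic := minpoly.monic hθ
  have hmsep : ((minpoly ℤ θ).map (Int.castRingHom ℚ)).Separable := by
    have h1 : (minpoly ℤ θ).map (algebraMap ℤ ℚ) = minpoly ℚ θ :=
      (minpoly.isIntegrallyClosed_eq_field_fractions' ℚ hθ).symm
    have h2 : (algebraMap ℤ ℚ) = Int.castRingHom ℚ := rfl
    rw [← h2, h1]
    exact (minpoly.irreducible (Algebra.IsIntegral.isIntegral θ)).separable
  obtain ⟨A, hA, hAs, hAd⟩ := exists_common (I := Bool)
    (fun b => if b then R else minpoly ℤ θ) (by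
      intro b
      cases b
      · simpa using hm
      · simpa using hR) (by
      intro b
      cases b
      · simpa using hmsep
      · simpa using hsep)
  have hRA : R ∣ A := by simpa using hAd true
  have hmA : minpoly ℤ θ ∣ A := by simpa using hAd false
  have h := SPL A hA hAs
  have h2 : ({l : ℕ | l.Prime ∧ SplitsMod A l} \ (c.primeFactors : Set ℕ)).Infinite :=
    h.sdiff c.primeFactors.finite_toSet
  refine h2.mono ?_
  rintro l ⟨⟨hl, hs⟩, hlc⟩
  have : Fact l.Prime := ⟨hl⟩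
  have hlc' : ¬ l ∣ c := fun h => hlc (by
    rw [Finset.mem_coe]
    exact Nat.mem_primeFactors.2 ⟨hl, h, hc0⟩)
  refine ⟨hl, splitsMod_of_dvd hR hRA hl hs, ?_⟩
  obtain ⟨T, hT⟩ := splitsMod_of_dvd hm hmA hl hs
  have hTne : T.Nonempty := by
    by_contra hne
    rw [Finset.not_nonempty_iff_eq_empty] at hne
    rw [hne, Finset.prod_empty] at hT
    have h3 := congrArg natDegree hT
    rw [hm.natDegree_map, natDegree_one] at h3
    have h4 := minpoly.natDegree_pos hθ
    omega
  obtain ⟨t, ht⟩ := hTne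
  refine exists_hom K θ hθ c hc l hlc' t ?_
  rw [hT, IsRoot.def, eval_prod, Finset.prod_eq_zero_iff]
  exact ⟨t, ht, by simp⟩

end Pool.Agent.L5helper7.AA
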